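import Pool.Agent.NL.StmtsA

set_option autoImplicit false

open MeasureTheory Filter Topology

noncomputable section

namespace Pool.Agent.NL.H95

open Pool.Agent.NL

theorem l1_eq (b : ℝ →₀ ℝ) (s : Finset ℝ) (hs : b.support ⊆ s) : l1 b = ∑ x ∈ s, |b x| := by
  unfold l1
  exact Finsupp.sum_of_support_subset b hs _ (fun _ _ => abs_zero)

theorem l1_nn (b : ℝ →₀ ℝ) : 0 ≤ l1 b := by
  rw [l1_eq b b.support (Finset.Subset.refl _)]
  exact Finset.sum_nonneg fun _ _ => abs_nonneg _

theorem l1_step (b : ℝ →₀ ℝ) (r x t : ℝ) (ht : 0 ≤ t ∧ t ≤ 1) :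
    l1 (b + (t * b r) • (Finsupp.single x (1 : ℝ) - Finsupp.single r 1)) ≤ l1 b := by
  set b' := b + (t * b r) • (Finsupp.single x (1 : ℝ) - Finsupp.single r 1) with hb'
  set s := insert x (insert r b.support) with hs
  have hv : ∀ y, b' y = b y + (t * b r) * ((if x = y then 1 else 0) - (if r = y then 1 else 0)) := by
    intro y
    rw [hb', Finsupp.add_apply, Finsupp.smul_apply, Finsupp.sub_apply, Finsupp.single_apply,
      Finsupp.single_apply, smul_eq_mul]
  have hsub : b'.support ⊆ s := by
    intro y hy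
    rw [Finsupp.mem_support_iff] at hy
    by_contra hn
    rw [hs, Finset.mem_insert, Finset.mem_insert, not_or, not_or] at hn
    obtain ⟨h1, h2, h3⟩ := hn
    apply hy
    rw [hv, if_neg (fun h => h1 h.symm), if_neg (fun h => h2 h.symm), sub_zero, mul_zero, add_zero]
    exact Finsupp.notMem_support_iff.1 h3
  have hsub2 : b.support ⊆ s := by
    intro y hy
    rw [hs]
    exact Finset.mem_insert_of_mem (Finset.mem_insert_of_mem hy)
  rw [l1_eq b' s hsub, l1_eq b s hsub2]
  have hp : ∀ y ∈ s, |b' y| ≤ |b y| + (if x = y then t * |b r| else 0) -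
      (if r = y then t * |b r| else 0) := by
    intro y _
    rw [hv]
    by_cases h1 : x = y
    · by_cases h2 : r = y
      · rw [if_pos h1, if_pos h2, if_pos h1, if_pos h2, sub_self, mul_zero, add_zero,
          add_sub_cancel_right]
      · rw [if_pos h1, if_neg h2, if_pos h1, if_neg h2, sub_zero, sub_zero, mul_one]
        refine (abs_add_le _ _).trans ?_
        rw [abs_mul, abs_of_nonneg ht.1]
    · by_cases h2 : r = y
      · subst h2
        rw [if_neg h1, if_pos rfl, if_neg h1, if_pos rfl]
        have h3 : b r + t * b r * (0 - 1) = (1 - t) * b r := by ring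
        rw [h3, abs_mul, abs_of_nonneg (sub_nonneg.2 ht.2)]
        apply le_of_eq
        ring
      · rw [if_neg h1, if_neg h2, if_neg h1, if_neg h2, sub_zero, mul_zero, add_zero, sub_zero,
          add_zero]
  refine (Finset.sum_le_sum hp).trans ?_
  rw [Finset.sum_sub_distrib, Finset.sum_add_distrib, Finset.sum_ite_eq, Finset.sum_ite_eq,
    if_pos (Finset.mem_insert_self _ _),
    if_pos (Finset.mem_insert_of_mem (Finset.mem_insert_self _ _)), add_sub_cancel_right]

/-- the replaced vector -/
def rpl (b : ℝ →₀ ℝ) (R : Finset ℝ) (κ t : ℝ → ℝ) : ℝ →₀ ℝ :=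
  b + ∑ r ∈ R, (t r * b r) • (Finsupp.single (κ r) (1 : ℝ) - Finsupp.single r 1)

theorem rpl_apply (b : ℝ →₀ ℝ) (R : Finset ℝ) (κ t : ℝ → ℝ) (x : ℝ) (hx : x ∉ R)
    (hκ : ∀ r ∈ R, κ r ≠ x) : rpl b R κ t x = b x := by
  unfold rpl
  rw [Finsupp.add_apply, Finsupp.finsetSum_apply]
  rw [Finset.sum_eq_zero, add_zero]
  intro r hr
  have h5 : ¬ r = x := fun h => hx (h ▸ hr)
  rw [Finsupp.smul_apply, Finsupp.sub_apply, Finsupp.single_apply, Finsupp.single_apply,
    if_neg (hκ r hr), if_neg h5, sub_zero, smul_zero]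

theorem rpl_l1 (b : ℝ →₀ ℝ) (κ t : ℝ → ℝ) (ht : ∀ s, 0 ≤ t s ∧ t s ≤ 1) (R : Finset ℝ) :
    (∀ r ∈ R, κ r ∉ R) → l1 (rpl b R κ t) ≤ l1 b := by
  induction R using Finset.induction_on with
  | empty =>
    intro _
    apply le_of_eq
    unfold rpl
    rw [Finset.sum_empty, add_zero]
  | insert r R hr ih =>
    intro hκ
    have h1 : rpl b (insert r R) κ t = rpl b R κ t + (t r * rpl b R κ t r) •
        (Finsupp.single (κ r) (1 : ℝ) - Finsupp.single r 1) := by
      rw [rpl_apply b R κ t r hr (fun r' hr' h => hκ r' (Finset.mem_insert_of_mem hr')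
        (h ▸ Finset.mem_insert_self _ _))]
      unfold rpl
      rw [Finset.sum_insert hr]
      abel
    rw [h1]
    refine (l1_step _ _ _ _ (ht r)).trans (ih ?_)
    intro r' hr' h
    exact hκ r' (Finset.mem_insert_of_mem hr') (Finset.mem_insert_of_mem h)

theorem rpl_V (G : ℝ → Z) (b : ℝ →₀ ℝ) (R : Finset ℝ) (κ t : ℝ → ℝ) :
    V G (rpl b R κ t) = V G b + ∑ r ∈ R, (t r * b r) • (G (κ r) - G r) := by
  unfold rpl V
  rw [map_add, map_sum]
  congr 1
  refine Finset.sum_congr rfl fun r _ => ?_
  rw [map_smul, map_sub, Finsupp.linearCombination_single, Finsupp.linearCombination_single,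
    one_smul, one_smul]

theorem rpl_supp (b : ℝ →₀ ℝ) (R : Finset ℝ) (κ t : ℝ → ℝ) (T : Finset ℝ) (hb : b.support ⊆ T)
    (hR : R ⊆ T) (hκ : ∀ r ∈ R, κ r ∈ T) : (rpl b R κ t).support ⊆ T := by
  intro x hx
  by_contra hn
  rw [Finsupp.mem_support_iff] at hx
  apply hx
  rw [rpl_apply b R κ t x (fun h => hn (hR h)) (fun r hr h => hn (h ▸ hκ r hr))]
  exact Finsupp.notMem_support_iff.1 (fun h => hn (hb h))

theorem bat (gpt : GptStmt) (ret : RetStmt) : BatStmt := by
  intro X _ _ f F G Ψ hc hT a W hW R
  induction R using Finset.induction_on with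
  | empty =>
    intro _ Φ E _ ε hε
    refine ⟨fun _ => 0, fun _ => 0, ?_, ?_, ?_, ?_⟩
    · intro r hr
      exact absurd hr (Finset.notMem_empty r)
    · intro r hr
      exact absurd hr (Finset.notMem_empty r)
    · rw [Finset.biUnion_empty, Finset.union_empty]
      exact hW
    · intro κ _
      refine ⟨?_, ?_⟩
      · intro U _ _ h
        rw [Finset.image_empty, Finset.union_empty]
        exact h
      · intro b _ z _ t _
        rw [Finset.sum_empty, add_zero]
        have h1 := l1_nn b
        have h2 := norm_nonneg z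
        have h3 : 0 ≤ ε * (l1 b + ‖z‖) := by positivity
        linarith
  | insert r R hr ih =>
    intro hRW Φ E _ ε hε
    have hrW : r ∈ W := hRW (Finset.mem_insert_self _ _)
    have hRW' : R ⊆ W := fun x hx => hRW (Finset.mem_insert_of_mem hx)
    have hε2 : 0 < ε / 2 := by positivity
    obtain ⟨p₀, y₀, h1, h2, h3, h4⟩ := ih hRW' Φ E (ε / 2) hε2
    set T := W ∪ R.biUnion fun r => (p₀ r).support with hTdef
    have hWT : W ⊆ T := Finset.subset_union_left
    have hpT : ∀ r' ∈ R, (p₀ r').support ⊆ T := by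
      intro r' hr' x hx
      exact Finset.mem_union_right _ (Finset.mem_biUnion.2 ⟨r', hr', hx⟩)
    have hg := gpt X f F G Ψ hc a T h3 r (hWT hrW) Φ E (ε / 2) hε2
    obtain ⟨p', hp1, hp2, hp3, hp4, y', hy'⟩ := ret X G Ψ hT T h3 r _ hg ε hε
    have hpr : (Function.update p₀ r p') r = p' := Function.update_self _ _ _
    have hpR : ∀ r' ∈ R, (Function.update p₀ r p') r' = p₀ r' := by
      intro r' hr'
      have hne : r' ≠ r := fun h => hr (h ▸ hr')
      exact Function.update_of_ne hne _ _
    have hyr : (Function.update y₀ r y') r = y' := Function.update_self _ _ _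
    have hyR : ∀ r' ∈ R, (Function.update y₀ r y') r' = y₀ r' := by
      intro r' hr'
      have hne : r' ≠ r := fun h => hr (h ▸ hr')
      exact Function.update_of_ne hne _ _
    refine ⟨Function.update p₀ r p', Function.update y₀ r y', ?_, ?_, ?_, ?_⟩
    · intro r' hr'
      rw [Finset.mem_insert] at hr'
      rcases hr' with rfl | hr'
      · rw [hpr, hyr]
        refine ⟨hp1, hp3.mono_right hWT, hy', ?_⟩
        intro x hx k hk
        obtain ⟨_, _, hN⟩ := hp2 hx
        exact (hN.co k hk).trans (by linarith)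
      · rw [hpR r' hr', hyR r' hr']
        obtain ⟨g1, g2, g3, g4⟩ := h1 r' hr'
        refine ⟨g1, g2, g3.trans (by linarith), ?_⟩
        intro x hx k hk
        exact (g4 x hx k hk).trans (by linarith)
    · intro r₁ hr₁ r₂ hr₂ hne
      rw [Finset.mem_insert] at hr₁ hr₂
      rcases hr₁ with rfl | hr₁
      · rcases hr₂ with rfl | hr₂
        · exact absurd rfl hne
        · rw [hpr, hpR r₂ hr₂]
          exact hp3.mono_right (hpT r₂ hr₂)
      · rcases hr₂ with rfl | hr₂
        · rw [hpr, hpR r₁ hr₁]
          exact (hp3.mono_right (hpT r₁ hr₁)).symm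
        · rw [hpR r₁ hr₁, hpR r₂ hr₂]
          exact h2 r₁ hr₁ r₂ hr₂ hne
    · have h5 : (W ∪ (insert r R).biUnion fun r' => (Function.update p₀ r p' r').support) =
          T ∪ p'.support := by
        rw [Finset.biUnion_insert, hpr]
        have h6 : (R.biUnion fun r' => (Function.update p₀ r p' r').support) =
            R.biUnion fun r' => (p₀ r').support := by
          refine Finset.biUnion_congr rfl fun r' hr' => ?_
          rw [hpR r' hr']
        rw [h6, hTdef, Finset.union_comm p'.support, Finset.union_assoc]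
      rw [h5]
      exact hp4
    · intro κ hκ
      have hκr : κ r ∈ p'.support := by
        have := hκ r (Finset.mem_insert_self _ _)
        rwa [hpr] at this
      have hκR : ∀ r' ∈ R, κ r' ∈ (p₀ r').support := by
        intro r' hr'
        have := hκ r' (Finset.mem_insert_of_mem hr')
        rwa [hpR r' hr'] at this
      obtain ⟨_, _, hN⟩ := hp2 hκr
      obtain ⟨k1, k2⟩ := h4 κ hκR
      have hκW : ∀ r' ∈ R, κ r' ∉ W := by
        intro r' hr' h
        exact Finset.disjoint_left.1 (h1 r' hr').2.1 (hκR r' hr') h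
      refine ⟨?_, ?_⟩
      · intro U hU hRU hnU
        have hRU' : R ⊆ U := fun x hx => hRU (Finset.mem_insert_of_mem hx)
        have h7 := k1 U hU hRU' hnU
        have h8 : U ∪ R.image κ ⊆ T := by
          refine Finset.union_subset (hU.trans hWT) ?_
          intro x hx
          obtain ⟨r', hr', rfl⟩ := Finset.mem_image.1 hx
          exact hpT r' hr' (hκR r' hr')
        have h9 := hN.nr (U ∪ R.image κ) h8
          (Finset.mem_union_left _ (hRU (Finset.mem_insert_self _ _))) h7
        rw [Finset.image_insert, Finset.union_insert]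
        exact h9
      · intro b hb z hz t ht
        have h7 : (rpl b R κ t).support ⊆ T := by
          refine rpl_supp b R κ t T (hb.trans hWT) (hRW'.trans hWT) ?_
          intro r' hr'
          exact hpT r' hr' (hκR r' hr')
        have h8 : rpl b R κ t r = b r := by
          refine rpl_apply b R κ t r hr ?_
          intro r' hr' h
          exact hκW r' hr' (h ▸ hrW)
        have h9 : l1 (rpl b R κ t) ≤ l1 b := by
          refine rpl_l1 b κ t ht R ?_
          intro r' hr' h
          exact hκW r' hr' (hRW' h)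
        have h10 := hN.up (rpl b R κ t) h7 (t r) (ht r).1 (ht r).2 z hz
        rw [h8, rpl_V] at h10
        have h11 := k2 b hb z hz t ht
        have h12 : V G b + ∑ r' ∈ insert r R, (t r' * b r') • (G (κ r') - G r') - Ψ z =
            V G b + ∑ r' ∈ R, (t r' * b r') • (G (κ r') - G r') +
              (t r * b r) • (G (κ r) - G r) - Ψ z := by
          rw [Finset.sum_insert hr]
          abel
        rw [h12]
        have h13 : ε / 2 * (l1 (rpl b R κ t) + ‖z‖) ≤ ε / 2 * (l1 b + ‖z‖) := by
          refine mul_le_mul_of_nonneg_left ?_ hε2.le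
          linarith
        refine h10.trans ?_
        linarith

end Pool.Agent.NL.H95
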